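import Pool.Agent.Helper71.PY.Goals

set_option autoImplicit false

namespace Pool.Agent.Helper31.PY

open Pool.Agent.Helper71.PY

theorem reg : G_REG := by
  intro R _ _ _ _ x y hdim hmax
  have hheight : (IsLocalRing.maximalIdeal R).height = 2 := by
    have h := IsLocalRing.maximalIdeal_height_eq_ringKrullDim (R := R)
    rw [hdim] at h
    have h2 : ((IsLocalRing.maximalIdeal R).height : WithBot ℕ∞) = ((2 : ℕ∞) : WithBot ℕ∞) := by
      rw [h]; rfl
    exact WithBot.coe_injective h2
  -- (N)
  have key : ∀ I : Ideal R, I.IsPrincipal → ¬ (IsLocalRing.maximalIdeal R) ∈ I.minimalPrimes := by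
    intro I hI hmem
    have h1 := Ideal.height_le_one_of_isPrincipal_of_mem_minimalPrimes I
      (IsLocalRing.maximalIdeal R) hmem
    rw [hheight] at h1
    exact absurd h1 (by decide)
  have hxm : x ∈ IsLocalRing.maximalIdeal R := by
    rw [hmax]; exact Ideal.subset_span (by simp)
  have hym : y ∈ IsLocalRing.maximalIdeal R := by
    rw [hmax]; exact Ideal.subset_span (by simp)
  have hN : ∀ k : ℕ, ¬ x ∣ y ^ k := by
    intro k hk
    apply key (Ideal.span {x}) ⟨⟨x, rfl⟩⟩
    refine ⟨⟨inferInstance, ?_⟩, ?_⟩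
    · rw [Ideal.span_singleton_le_iff_mem]; exact hxm
    · rintro P ⟨hP, hxP⟩ _
      have hx' : x ∈ P := hxP (Ideal.mem_span_singleton_self x)
      have hy' : y ∈ P := by
        have : y ^ k ∈ P := by
          obtain ⟨c, hc⟩ := hk
          rw [hc]; exact P.mul_mem_right c hx'
        exact hP.mem_of_pow_mem k this
      rw [hmax, Ideal.span_le]
      rintro z (rfl | rfl)
      · exact hx'
      · exact hy'
  have hx0 : x ≠ 0 := by
    rintro rfl
    apply key (Ideal.span {y}) ⟨⟨y, rfl⟩⟩
    refine ⟨⟨inferInstance, ?_⟩, ?_⟩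
    · rw [Ideal.span_singleton_le_iff_mem]; exact hym
    · rintro P ⟨hP, hyP⟩ _
      have hy' : y ∈ P := hyP (Ideal.mem_span_singleton_self y)
      rw [hmax, Ideal.span_le]
      rintro z (rfl | rfl)
      · exact P.zero_mem
      · exact hy'
  have hnorm : ∀ r : R, ¬ x ∣ r → ∃ (k : ℕ) (u : R), IsUnit u ∧ x ∣ r - u * y ^ k := by
    intro r hr
    -- Krull intersection for R/(x)
    have hK : (⨅ i : ℕ, (IsLocalRing.maximalIdeal R) ^ i • (⊤ : Submodule R (R ⧸ Ideal.span {x}))) = ⊥ :=
      Ideal.iInf_pow_smul_eq_bot_of_isLocalRing (IsLocalRing.maximalIdeal R)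
        (IsLocalRing.maximalIdeal.isMaximal R).ne_top
    have hrne : (Ideal.Quotient.mk (Ideal.span {x}) r) ≠ 0 := by
      intro h
      rw [Ideal.Quotient.eq_zero_iff_mem, Ideal.mem_span_singleton] at h
      exact hr h
    have hex : ∃ k : ℕ, ¬ ∃ c : R, x ∣ r - c * y ^ k := by
      by_contra hcon
      push Not at hcon
      apply hrne
      rw [← Submodule.mem_bot R, ← hK, Submodule.mem_iInf]
      intro i
      obtain ⟨c, d, hd⟩ := hcon i
      have e1 : Ideal.Quotient.mk (Ideal.span {x}) r
          = (y ^ i) • (Ideal.Quotient.mk (Ideal.span {x}) c) := by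
        have e2 : r = c * y ^ i + x * d := by rw [← hd]; ring
        have e3 : Ideal.Quotient.mk (Ideal.span {x}) (x * d) = 0 := by
          rw [Ideal.Quotient.eq_zero_iff_mem]
          exact Ideal.mul_mem_right _ _ (Ideal.mem_span_singleton_self x)
        rw [e2, map_add, e3, add_zero, mul_comm]
        rfl
      rw [e1]
      exact Submodule.smul_mem_smul (Ideal.pow_mem_pow hym i) Submodule.mem_top
    classical
    have hk0 : Nat.find hex ≠ 0 := by
      intro h0
      have := Nat.find_spec hex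
      rw [h0] at this
      exact this ⟨r, by simp⟩
    obtain ⟨k, hk⟩ := Nat.exists_eq_succ_of_ne_zero hk0
    have hkc : ∃ c : R, x ∣ r - c * y ^ k := by
      by_contra hcon
      have := Nat.find_min' hex hcon
      omega
    obtain ⟨c, hc⟩ := hkc
    refine ⟨k, c, ?_, hc⟩
    by_contra hnu
    have hcm : c ∈ IsLocalRing.maximalIdeal R := (IsLocalRing.mem_maximalIdeal c).2 hnu
    rw [hmax, Ideal.mem_span_pair] at hcm
    obtain ⟨a, b, hab⟩ := hcm
    have := Nat.find_spec hex
    rw [hk] at this
    apply this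
    refine ⟨b, ?_⟩
    have e : r - b * y ^ (k.succ) = (r - c * y ^ k) + x * (a * y ^ k) := by
      rw [← hab, pow_succ]; ring
    rw [e]
    exact dvd_add hc (Dvd.intro _ rfl)
  refine ⟨hmax, ?_, ?_, hnorm⟩
  · refine ⟨hx0, ?_, ?_⟩
    · exact (IsLocalRing.mem_maximalIdeal x).1 hxm
    · intro a b hab
      by_contra hcon
      push Not at hcon
      obtain ⟨k, u, hu, hk⟩ := hnorm a hcon.1
      obtain ⟨l, v, hv, hl⟩ := hnorm b hcon.2
      have h1 : x ∣ (u * v) * y ^ (k + l) := by
        have e : (u * v) * y ^ (k + l) = a * b - (a - u * y ^ k) * b - (u * y ^ k) * (b - v * y ^ l) := by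
          rw [pow_add]; ring
        rw [e]
        exact dvd_sub (dvd_sub hab (Dvd.dvd.mul_right hk b)) (Dvd.dvd.mul_left hl _)
      have h2 : x ∣ y ^ (k + l) := by
        have huv := hu.mul hv
        obtain ⟨w, hw⟩ := huv.exists_left_inv
        have : y ^ (k + l) = w * ((u * v) * y ^ (k + l)) := by
          rw [← mul_assoc, hw, one_mul]
        rw [this]
        exact Dvd.dvd.mul_left h1 w
      exact hN _ h2
  · intro h
    exact hN 1 (by simpa using h)

end Pool.Agent.Helper31.PY
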